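import Pool.Agent.TMX.Stmts4

/-!
# Squad TMX (MP_b61ad0_an), row VBadL: the bad part of a chain, left version
-/

set_option autoImplicit false

namespace Pool.Agent.TMX.H5

open Finset
open Pool.Agent.TMX
open Pool.Agent.Helper51_Max (I IsMax)
open Pool.Agent.Helper37_EM (var)

theorem g_le_m {N : ℕ} {g M : ℕ → ℝ} (h : IsMax N g M) {v : ℕ} (hv : v ≤ N) : g v ≤ M v := by
  have h1 := h.le v hv 0
  have h2 : I N v 0 = {v} := by
    ext i
    simp only [I, Finset.mem_Icc, Finset.mem_singleton]
    omega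
  rw [h2, Finset.sum_singleton, Finset.card_singleton] at h1
  simpa using h1

theorem vBadL : VBadL := by
  intro hGapI hGainP hGain0 hLastK hXR3 hGain1b hGain3b N g M hM y z y' r c Y Y' p p' S
  obtain ⟨geo, top, c1, c2, cy, cy', cmin, geo1, hY, hY', pc, cp, pN, Y1, Y2⟩ := S
  have hz1 := geo1.hz
  have hrN := geo1.rN
  have hYz := geo1.yz
  have hzY' := geo1.zz
  have hzy' := geo.zz
  have hyz := geo.yz
  have hYN : Y ≤ N := by omega
  have hY'N : Y' ≤ N := by omega
  -- the set `C` of `(Y, Y')` is contained in the set `C` of `(y, y')`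
  have hCC : ∀ i, 2 * Y' ≤ i + z + r → i + z ≤ 2 * Y + r → g c ≤ g i := fun i h1 h2 =>
    cmin i (by omega) (by omega)
  have hMY : ∀ u : ℝ, (∀ i, p ≤ i → i ≤ p' → u ≤ g i) → u ≤ M Y := by
    intro u hu
    rcases Y1 with h | ⟨h1, h2⟩
    · rw [h]
      exact (hu c pc cp).trans cy
    · exact (hu Y h1 h2).trans (g_le_m hM hYN)
  have hMY' : ∀ u : ℝ, (∀ i, p ≤ i → i ≤ p' → u ≤ g i) → u ≤ M Y' := by
    intro u hu
    rcases Y2 with h | ⟨h1, h2⟩
    · rw [h]
      exact (hu c pc cp).trans cy'
    · exact (hu Y' h1 h2).trans (g_le_m hM hY'N)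
  refine ⟨fun u hu => ?_, fun u q hu0 hpq hqN hu => ?_, hGain0 N g M hM Y z Y' r geo1⟩
  · have h1 := hGainP hGapI N g M hM Y z Y' r u geo1
      (fun i h1 h2 => (hu c pc cp).trans (hCC i h1 h2)) (hMY u hu) (hMY' u hu)
    linarith
  · have huc : u ≤ g c := hu c (cp.trans hpq)
    have hup : ∀ i, p ≤ i → i ≤ p' → u ≤ g i := fun i _ h2 => hu i (h2.trans hpq)
    have huY := hMY u hup
    have huY' := hMY' u hup
    have huz : u ≤ M z := (huc.trans cy).trans geo.My.le
    have h2Y' : 2 * Y' ≤ p' + z + r := by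
      rcases Y2 with h | ⟨h1, h2⟩
      · rw [h]
        omega
      · omega
    rcases le_or_gt q (z + r) with hq | hq
    · have geo2 : Geo N g M y z Y' r :=
        { yz := geo.yz
          zz := geo1.zz
          rz := geo.rz
          rN := geo.rN
          hy := geo.hy
          hz := geo1.hz
          hC := by
            have := geo1.hC
            omega
          opt := geo.opt
          My := geo.My
          Mz := geo1.Mz }
      have hx := hXR3 hLastK N g M hM y z Y' r geo2
        (fun v h1 h2 => top v h1 (h2.trans hzy'.le)) u p' q hu0 huz h2Y' hpq hq hu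
        (fun i h1 h2 => huc.trans (cmin i (by omega) h2))
      have hg := hGain1b hGainP hGapI N g M hM Y z Y' r u geo1
        (fun i hi => hu i (by omega)) (fun i h1 h2 => huc.trans (hCC i h1 h2)) huY huY'
      linarith
    · have hg := hGain3b N g M hM Y z Y' r u p' q geo1 hq hqN hu h2Y' hpq
      linarith

end Pool.Agent.TMX.H5
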